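import Pool.Agent.helper37.CZ.SpecD

set_option autoImplicit false

open scoped Matrix Topology ComplexConjugate
open Filter

namespace Pool.Agent.CZ

theorem CSL_step {X : Type} [TopologicalSpace X] {α : X ≃ₜ X} {w : C(X, ℂ)} {h : C(X, ℝ)}
    (hr : Rot α w h) (x : X) (τ : ℝ) : IsLift (w x) τ ↔ IsLift (w (α x)) (τ + h x) := by
  have h2 := hr.2 x
  unfold IsLift
  rw [h2]
  have e1 : Complex.exp (2 * Real.pi * Complex.I * ((τ + h x : ℝ) : ℂ))
      = Complex.exp (2 * Real.pi * Complex.I * (h x : ℂ)) *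
        Complex.exp (2 * Real.pi * Complex.I * (τ : ℂ)) := by
    rw [← Complex.exp_add]
    congr 1
    push_cast
    ring
  rw [e1]
  constructor
  · intro h3
    rw [h3]
  · intro h3
    exact mul_left_cancel₀ (Complex.exp_ne_zero _) h3

theorem CSL (h1 : CSM_stmt) : CSL_stmt := by
  intro X _ α w h hr n x τ hτ
  obtain ⟨c0, c1, cadd, -, -, -⟩ := h1 X α h
  induction n using Int.induction_on with
  | zero =>
    rw [c0, add_zero, zpow_zero]
    exact hτ
  | succ n ih =>
    rw [cadd, c1, ← add_assoc]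
    have e1 : (α ^ ((n : ℤ) + 1)) x = α ((α ^ (n : ℤ)) x) := by
      rw [add_comm, zpow_add, zpow_one]
      rfl
    rw [e1]
    exact (CSL_step hr _ _).1 ih
  | pred n ih =>
    have e1 : (α ^ (-(n : ℤ))) x = α ((α ^ (-(n : ℤ) - 1)) x) := by
      have : -(n : ℤ) = 1 + (-(n : ℤ) - 1) := by ring
      conv_lhs => rw [this, zpow_add, zpow_one]
      rfl
    rw [CSL_step hr]
    have e2 := cadd (-(n : ℤ) - 1) 1 x
    rw [c1, sub_add_cancel] at e2
    rw [← e1, add_assoc, ← e2]
    exact ih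

end Pool.Agent.CZ
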